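import Pool.Agent.K4H59.TL.Spec

set_option autoImplicit false

open Set

namespace Pool.Agent.K4H59.TL

open Pool.Agent.K4H72.Til (IsPolygon ShareEdge IsTiling Tile Derivable Adj HasLocEig)

namespace M1

theorem sh_sh' (s t : ℂ) (K : Set ℂ) : sh s (sh t K) = sh (s + t) K := by
  unfold sh
  rw [image_image]
  congr 1
  funext z
  ring

theorem sh_zero' (K : Set ℂ) : sh 0 K = K := by
  unfold sh
  simp

theorem sh_neg' (t : ℂ) (K : Set ℂ) : sh (-t) (sh t K) = K := by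
  rw [sh_sh', neg_add_cancel, sh_zero']

theorem sh_neg'' (t : ℂ) (K : Set ℂ) : sh t (sh (-t) K) = K := by
  rw [sh_sh', add_neg_cancel, sh_zero']

theorem sh_inj' (t : ℂ) {K L : Set ℂ} (h : sh t K = sh t L) : K = L := by
  rw [← sh_neg' t K, h, sh_neg']

theorem mem_sh (t : ℂ) (K : Set ℂ) (z : ℂ) : z ∈ sh t K ↔ z - t ∈ K := by
  unfold sh
  constructor
  · rintro ⟨w, hw, rfl⟩
    simpa using hw
  · intro h
    exact ⟨z - t, h, by ring⟩

theorem sh_interior' (t : ℂ) (K : Set ℂ) : interior (sh t K) = sh t (interior K) := by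
  unfold sh
  exact ((Homeomorph.addLeft t).image_interior K).symm

theorem sh_edge' {K e : Set ℂ} (t : ℂ) (h : IsEdge K e) : IsEdge (sh t K) (sh t e) := by
  obtain ⟨h1, φ, c, hφ, h2, h3⟩ := h
  refine ⟨?_, φ, c + φ t, hφ, ?_, ?_⟩
  · obtain ⟨x, hx, y, hy, hxy⟩ := h1
    exact ⟨t + x, ⟨x, hx, rfl⟩, t + y, ⟨y, hy, rfl⟩, fun h => hxy (add_left_cancel h)⟩
  · intro x hx
    rw [mem_sh] at hx
    have := h2 _ hx
    rw [map_sub] at this
    linarith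
  · ext x
    rw [mem_sh, h3]
    simp only [mem_setOf_eq, mem_sh, map_sub]
    constructor
    · rintro ⟨a, b⟩
      exact ⟨a, by linarith⟩
    · rintro ⟨a, b⟩
      exact ⟨a, by linarith⟩

theorem sh_share' {K L : Set ℂ} (t : ℂ) (h : Share K L) : Share (sh t K) (sh t L) := by
  obtain ⟨e, h1, h2⟩ := h
  exact ⟨sh t e, sh_edge' t h1, sh_edge' t h2⟩

end M1

/-- PIECE M1, with `sh_polygon` of M0 as hypothesis -/
theorem sh_dec_of (hpoly : ∀ {K : Set ℂ} (t : ℂ), IsPolygon K → IsPolygon (sh t K))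
    {K : Set ℂ} {D : Set (Set ℂ)} {ρ : Set ℂ → ℕ} (t : ℂ) (h : GoodDec K D ρ) :
    GoodDec (sh t K) (sh t '' D) (fun Q => ρ (sh (-t) Q)) where
  countable := h.countable.image _
  poly := by
    rintro _ ⟨Q, hQ, rfl⟩
    exact hpoly t (h.poly Q hQ)
  sub := by
    rintro _ ⟨Q, hQ, rfl⟩
    exact image_mono (h.sub Q hQ)
  cover := by
    intro x hx
    rw [M1.mem_sh] at hx
    obtain ⟨Q, hQ, hxQ⟩ := h.cover _ hx
    exact ⟨sh t Q, ⟨Q, hQ, rfl⟩, (M1.mem_sh t Q x).2 hxQ⟩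
  disj := by
    rintro _ ⟨Q, hQ, rfl⟩ _ ⟨Q', hQ', rfl⟩ hne
    have h0 : Q ≠ Q' := fun h0 => hne (by rw [h0])
    have := h.disj Q hQ Q' hQ' h0
    rw [M1.sh_interior', M1.sh_interior', Set.disjoint_left]
    intro x h1 h2
    rw [M1.mem_sh] at h1 h2
    exact Set.disjoint_left.1 this h1 h2
  inner := by
    rintro _ ⟨Q, hQ, rfl⟩ h1
    rw [M1.sh_neg'] at h1
    rw [M1.sh_interior']
    exact image_mono (h.inner Q hQ h1)
  next := by
    rintro _ ⟨Q, hQ, rfl⟩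
    obtain ⟨W, hW, h1, h2, h3⟩ := h.next Q hQ
    refine ⟨sh t W, ⟨W, hW, rfl⟩, ?_, M1.sh_share' t h2, ?_⟩
    · rw [M1.sh_neg', M1.sh_neg', h1]
    · rintro _ ⟨Q', hQ', rfl⟩ h4 h5 h6
      rw [M1.sh_neg', M1.sh_neg'] at h6
      have h7 : Q' ≠ W := fun h7 => h4 (by rw [h7])
      have h8 := M1.sh_share' (-t) h5
      rw [M1.sh_neg', M1.sh_neg'] at h8
      rw [h3 Q' hQ' h7 h8 h6]

end Pool.Agent.K4H59.TL
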