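import Pool.Agent.K4H72.Til.Spec

set_option autoImplicit false

open Set Filter Topology

namespace Pool.Agent.K4H59.TL

namespace N1

open Pool.Agent.K4H72.Til (IsPolygon ShareEdge IsTiling Tile Adj)

/-- strict inequalities at a point give an interior point -/
theorem interior_of_strict {A : Set ℂ} {s : Finset ((ℂ →L[ℝ] ℝ) × ℝ)}
    (hA : A = {z | ∀ p ∈ s, p.1 z ≤ p.2}) {z : ℂ} (hz : ∀ p ∈ s, p.1 z < p.2) :
    z ∈ interior A := by
  rw [mem_interior]
  refine ⟨⋂ p ∈ s, {w : ℂ | p.1 w < p.2}, ?_, ?_, ?_⟩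
  · intro w hw
    rw [hA]
    intro p hp
    exact (mem_iInter₂.1 hw p hp).le
  · exact isOpen_biInter_finset fun p _ => isOpen_lt p.1.continuous continuous_const
  · exact mem_iInter₂.2 hz

/-- a nonzero functional is strict at interior points -/
theorem strict_of_interior {A : Set ℂ} {l : ℂ →L[ℝ] ℝ} {M : ℝ} (hl : l ≠ 0)
    (hA : ∀ z ∈ A, l z ≤ M) {y : ℂ} (hy : y ∈ interior A) : l y < M := by
  by_contra hlt
  have hM : l y = M := le_antisymm (hA y (interior_subset hy)) (not_lt.1 hlt)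
  apply hl
  have hloc : ∀ w : ℂ, l w ≤ 0 := by
    intro w
    have h1 : Tendsto (fun t : ℝ => y + t • w) (𝓝[>] 0) (𝓝 y) := by
      have : Tendsto (fun t : ℝ => y + t • w) (𝓝 0) (𝓝 (y + (0 : ℝ) • w)) := by
        apply Continuous.tendsto
        fun_prop
      rw [zero_smul, add_zero] at this
      exact this.mono_left nhdsWithin_le_nhds
    have h2 : ∀ᶠ t : ℝ in 𝓝[>] 0, y + t • w ∈ interior A :=
      h1.eventually (isOpen_interior.mem_nhds hy)
    obtain ⟨t, ht1, ht2⟩ := (h2.and self_mem_nhdsWithin).exists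
    have h3 := hA _ (interior_subset ht1)
    rw [map_add, map_smul, hM, smul_eq_mul] at h3
    have ht2' : (0 : ℝ) < t := ht2
    by_contra hc
    push Not at hc
    have := mul_pos ht2' hc
    linarith
  ext w
  have h1 := hloc w
  have h2 := hloc (-w)
  rw [map_neg] at h2
  simp only [ContinuousLinearMap.zero_apply]
  linarith

/-- coordinates with respect to `d` and `I d` -/
theorem coord {d : ℂ} (hd : d ≠ 0) (w : ℂ) : ∃ α β : ℝ, w = α • d + β • (Complex.I * d) := by
  refine ⟨(w / d).re, (w / d).im, ?_⟩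
  have h1 : w = (w / d) * d := by field_simp
  have h2 : w / d = ((w / d).re : ℂ) + ((w / d).im : ℂ) * Complex.I := (Complex.re_add_im _).symm
  rw [Complex.real_smul, Complex.real_smul]
  calc w = (w / d) * d := h1
    _ = (((w / d).re : ℂ) + ((w / d).im : ℂ) * Complex.I) * d := by rw [← h2]
    _ = _ := by ring

theorem half {A : Set ℂ} (hA : IsPolygon A) {a b : ℂ} (ha : a ∈ A) (hb : b ∈ A) (hab : a ≠ b) :
    ∃ σ : ℝ, (σ = 1 ∨ σ = -1) ∧ ∀ᶠ δ : ℝ in 𝓝[>] 0,
      (a + b) / 2 + (δ * σ) • (Complex.I * (b - a)) ∈ interior A := by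
  obtain ⟨hne, -, hcl, s, hs0, hs⟩ := hA
  have hd : b - a ≠ 0 := sub_ne_zero.2 hab.symm
  set x : ℂ := (a + b) / 2 with hx
  set n : ℂ := Complex.I * (b - a) with hn
  have hxp : ∀ p : (ℂ →L[ℝ] ℝ), p x = (p a + p b) / 2 := by
    intro p
    have e1 : x = (1 / 2 : ℝ) • (a + b) := by
      rw [hx, Complex.real_smul]; push_cast; ring
    rw [e1, map_smul, map_add, smul_eq_mul]; ring
  have haA : ∀ p ∈ s, p.1 a ≤ p.2 := by rw [hs] at ha; exact ha
  have hbA : ∀ p ∈ s, p.1 b ≤ p.2 := by rw [hs] at hb; exact hb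
  obtain ⟨y, hy⟩ : (interior A).Nonempty := by
    obtain ⟨z, hz⟩ := hne
    exact closure_nonempty_iff.1 ⟨z, hcl hz⟩
  obtain ⟨α, β, hαβ⟩ := coord hd (y - x)
  -- tight constraints
  have htight : ∀ p ∈ s, p.1 x = p.2 → β * p.1 n < 0 := by
    intro p hp hpx
    have h1 := haA p hp
    have h2 := hbA p hp
    have h3 := hxp p.1
    have h4 : p.1 (b - a) = 0 := by rw [map_sub]; linarith
    have h5 : p.1 y < p.2 :=
      strict_of_interior (hs0 p hp) (fun z hz => by rw [hs] at hz; exact hz p hp) hy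
    have h6 : p.1 (y - x) = β * p.1 n := by
      rw [hαβ, map_add, map_smul, map_smul, h4, smul_eq_mul, smul_eq_mul, mul_zero, zero_add]
    rw [map_sub] at h6
    linarith
  have key : ∀ σ : ℝ, (∀ p ∈ s, p.1 x = p.2 → σ * p.1 n < 0) → ∀ᶠ δ : ℝ in 𝓝[>] 0,
      x + (δ * σ) • n ∈ interior A := by
    intro σ hσ
    have : ∀ᶠ δ : ℝ in 𝓝[>] 0, ∀ p ∈ s, p.1 (x + (δ * σ) • n) < p.2 := by
      rw [Filter.eventually_all_finset]
      intro p hp
      have hle : p.1 x ≤ p.2 := by
        rw [hxp]; have := haA p hp; have := hbA p hp; linarith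
      rcases hle.lt_or_eq with h | h
      · have h1 : Tendsto (fun δ : ℝ => p.1 (x + (δ * σ) • n)) (𝓝[>] 0) (𝓝 (p.1 x)) := by
          have : Tendsto (fun δ : ℝ => p.1 (x + (δ * σ) • n)) (𝓝 0) (𝓝 (p.1 (x + (0 * σ) • n))) := by
            apply Continuous.tendsto
            fun_prop
          rw [zero_mul, zero_smul, add_zero] at this
          exact this.mono_left nhdsWithin_le_nhds
        exact h1.eventually (gt_mem_nhds h)
      · filter_upwards [self_mem_nhdsWithin] with δ hδ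
        have hδ' : (0 : ℝ) < δ := hδ
        rw [map_add, map_smul, smul_eq_mul, h, mul_assoc]
        have := mul_neg_of_pos_of_neg hδ' (hσ p hp h)
        linarith
    exact this.mono fun δ h => interior_of_strict hs h
  rcases lt_trichotomy β 0 with hβ | hβ | hβ
  · refine ⟨-1, Or.inr rfl, key (-1) fun p hp h => ?_⟩
    have := htight p hp h
    nlinarith
  · refine ⟨1, Or.inl rfl, key 1 fun p hp h => ?_⟩
    have := htight p hp h
    rw [hβ, zero_mul] at this
    exact absurd this (lt_irrefl _)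
  · refine ⟨1, Or.inl rfl, key 1 fun p hp h => ?_⟩
    have := htight p hp h
    rw [one_mul]
    by_contra hc
    push Not at hc
    have := mul_nonneg hβ.le hc
    linarith

/-- the faces of a polygon are given by its constraints -/
theorem face {A : Set ℂ} {s : Finset ((ℂ →L[ℝ] ℝ) × ℝ)} (hA : IsPolygon A)
    (hs0 : ∀ p ∈ s, p.1 ≠ 0) (hs : A = {z | ∀ p ∈ s, p.1 z ≤ p.2}) {e : Set ℂ}
    (he : IsExposed ℝ A e) (hne : e.Nontrivial) (heA : e ≠ A) :
    ∃ p ∈ s, e = {z | z ∈ A ∧ p.1 z = p.2} := by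
  obtain ⟨a, ha, b, hb, hab⟩ := hne
  obtain ⟨l, hl⟩ := he ⟨a, ha⟩
  have hd : b - a ≠ 0 := sub_ne_zero.2 hab.symm
  rw [hl] at ha hb
  obtain ⟨haA, ha⟩ := ha
  obtain ⟨hbA, hb⟩ := hb
  set x : ℂ := (a + b) / 2 with hx
  have hxp : ∀ p : (ℂ →L[ℝ] ℝ), p x = (p a + p b) / 2 := by
    intro p
    have e1 : x = (1 / 2 : ℝ) • (a + b) := by
      rw [hx, Complex.real_smul]; push_cast; ring
    rw [e1, map_smul, map_add, smul_eq_mul]; ring
  have hab' : l a = l b := le_antisymm (hb a haA) (ha b hbA)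
  have haA' : ∀ p ∈ s, p.1 a ≤ p.2 := by rw [hs] at haA; exact haA
  have hbA' : ∀ p ∈ s, p.1 b ≤ p.2 := by rw [hs] at hbA; exact hbA
  have hl0 : l ≠ 0 := by
    rintro rfl
    apply heA
    rw [hl]
    ext z
    simp
  have hlx : l x = l a := by rw [hxp]; linarith
  obtain ⟨hneA, -, hcl, -⟩ := hA
  obtain ⟨y, hy⟩ : (interior A).Nonempty := by
    obtain ⟨z, hz⟩ := hneA
    exact closure_nonempty_iff.1 ⟨z, hcl hz⟩
  -- a tight constraint
  obtain ⟨p, hp, hpx⟩ : ∃ p ∈ s, p.1 x = p.2 := by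
    by_contra hc
    push Not at hc
    have h1 : x ∈ interior A := by
      apply interior_of_strict hs
      intro p hp
      refine lt_of_le_of_ne ?_ (hc p hp)
      rw [hxp]; have := haA' p hp; have := hbA' p hp; linarith
    have := strict_of_interior hl0 (M := l a) (fun z hz => ha z hz) h1
    linarith
  refine ⟨p, hp, ?_⟩
  have h1 := haA' p hp
  have h2 := hbA' p hp
  have h3 := hxp p.1
  have h4 : p.1 (b - a) = 0 := by rw [map_sub]; linarith
  have h4' : l (b - a) = 0 := by rw [map_sub]; linarith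
  -- both are multiples of one functional
  have hprop : ∀ z : ℂ, p.1 (Complex.I * (b - a)) * l z = l (Complex.I * (b - a)) * p.1 z := by
    intro z
    obtain ⟨α, β, hz⟩ := coord hd z
    rw [hz, map_add, map_add, map_smul, map_smul, map_smul, map_smul, h4, h4']
    simp only [smul_eq_mul]
    ring
  have hyl : l y < l a := strict_of_interior hl0 (fun z hz => ha z hz) hy
  have hyp : p.1 y < p.2 :=
    strict_of_interior (hs0 p hp) (fun z hz => by rw [hs] at hz; exact hz p hp) hy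
  have hprop2 : ∀ z : ℂ, (p.1 y - p.2) * (l z - l a) = (l y - l a) * (p.1 z - p.2) := by
    intro z
    have q1 := hprop (z - x)
    have q2 := hprop (y - x)
    rw [map_sub, map_sub, hpx, hlx] at q1 q2
    have hnz : p.1 (Complex.I * (b - a)) ≠ 0 := by
      intro h0
      rw [h0, zero_mul] at q2
      rcases mul_eq_zero.1 q2.symm with h5 | h5
      · apply hl0
        ext w
        obtain ⟨α, β, hw⟩ := coord hd w
        rw [hw, map_add, map_smul, map_smul, h4', h5]
        simp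
      · linarith
    have q3 : p.1 (Complex.I * (b - a)) * ((p.1 y - p.2) * (l z - l a) - (l y - l a) * (p.1 z - p.2)) = 0 := by
      linear_combination (p.1 y - p.2) * q1 - (p.1 z - p.2) * q2
    rcases mul_eq_zero.1 q3 with h5 | h5
    · exact absurd h5 hnz
    · linarith
  rw [hl]
  ext z
  simp only [mem_setOf_eq]
  constructor
  · rintro ⟨hz, hzm⟩
    refine ⟨hz, ?_⟩
    have h5 : l z = l a := le_antisymm (ha z hz) (hzm a haA)
    have h6 := hprop2 z
    rw [h5, sub_self, mul_zero] at h6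
    rcases mul_eq_zero.1 h6.symm with h7 | h7
    · linarith
    · linarith
  · rintro ⟨hz, hzm⟩
    refine ⟨hz, fun w hw => ?_⟩
    have h6 := hprop2 z
    rw [hzm, sub_self, mul_zero] at h6
    have h7 : l z = l a := by
      rcases mul_eq_zero.1 h6 with h7 | h7
      · linarith
      · linarith
    rw [h7]
    exact ha w hw

end N1

open Pool.Agent.K4H72.Til (IsPolygon ShareEdge IsTiling Tile Adj) in
theorem nbr_finite {C : Type} {T : Set (Pool.Agent.K4H72.Til.Tile C)}
    (hT : Pool.Agent.K4H72.Til.IsTiling T) (v : T) :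
    {u : T | Pool.Agent.K4H72.Til.Adj u v}.Finite := by
  obtain ⟨-, -, -, s, hs0, hs⟩ := hT.polygon v.1 v.2
  have hfin : ((fun p : (ℂ →L[ℝ] ℝ) × ℝ => {z : ℂ | z ∈ v.1.1 ∧ p.1 z = p.2}) '' (s : Set _)).Finite :=
    s.finite_toSet.image _
  refine (hfin.biUnion (t := fun e => {u : T | u ≠ v ∧ e.Nontrivial ∧ e ⊆ u.1.1 ∧ e ⊆ v.1.1})
    fun e _ => ?_).subset ?_
  · -- at most one tile besides `v` has the face `e`
    apply Set.Subsingleton.finite
    rintro u ⟨h1, ⟨a, ha, b, hb, hab⟩, h2, h3⟩ u' ⟨h1', -, h2', -⟩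
    obtain ⟨σ, hσ, k⟩ := N1.half (hT.polygon u.1 u.2) (h2 ha) (h2 hb) hab
    obtain ⟨σ', hσ', k'⟩ := N1.half (hT.polygon u'.1 u'.2) (h2' ha) (h2' hb) hab
    obtain ⟨τ, hτ, kv⟩ := N1.half (hT.polygon v.1 v.2) (h3 ha) (h3 hb) hab
    have common : ∀ (w w' : T) (ρ : ℝ),
        (∀ᶠ δ : ℝ in 𝓝[>] 0, (a + b) / 2 + (δ * ρ) • (Complex.I * (b - a)) ∈ interior w.1.1) →
        (∀ᶠ δ : ℝ in 𝓝[>] 0, (a + b) / 2 + (δ * ρ) • (Complex.I * (b - a)) ∈ interior w'.1.1) →
        w = w' := by
      intro w w' ρ q q'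
      by_contra hne
      obtain ⟨δ, h4, h5⟩ := (q.and q').exists
      exact Set.disjoint_left.1 (hT.disj w.1 w.2 w'.1 w'.2 (fun h => hne (Subtype.ext h))) h4 h5
    rcases hσ with rfl | rfl <;> rcases hσ' with rfl | rfl <;> rcases hτ with rfl | rfl
    · exact common u u' _ k k'
    · exact common u u' _ k k'
    · exact absurd (common u v _ k kv) h1
    · exact absurd (common u' v _ k' kv) h1'
    · exact absurd (common u' v _ k' kv) h1'
    · exact absurd (common u v _ k kv) h1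
    · exact common u u' _ k k'
    · exact common u u' _ k k'
  · rintro u ⟨huv, e, he1, he2, hne, -, heB⟩
    obtain ⟨p, hp, hep⟩ := N1.face (hT.polygon v.1 v.2) hs0 hs he2 hne heB
    refine mem_biUnion ⟨p, hp, hep.symm⟩ ⟨huv, hne, he1.subset, he2.subset⟩

end Pool.Agent.K4H59.TL
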