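import Pool.Agent.K4H72.Til.Spec

set_option autoImplicit false

open Set

namespace Pool.Agent.K4H72.Til

namespace T10

theorem E_sub' (v w : ℤ × ℤ) : E (v - w) = E v - E w := by
  unfold E; push_cast [Prod.fst_sub, Prod.snd_sub]; ring

theorem E_add' (v w : ℤ × ℤ) : E (v + w) = E v + E w := by
  unfold E; push_cast [Prod.fst_add, Prod.snd_add]; ring

theorem norm_sq' (v : ℤ × ℤ) : ‖E v‖ ^ 2 = (v.1 : ℝ) ^ 2 + v.1 * v.2 + (v.2 : ℝ) ^ 2 := by
  have h3 : Real.sqrt 3 ^ 2 = 3 := Real.sq_sqrt (by norm_num)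
  rw [Complex.sq_norm, Complex.normSq_apply]
  have hre : (E v).re = v.1 + v.2 * (1 / 2) := by
    simp [E, ζ]
  have him : (E v).im = v.2 * (Real.sqrt 3 / 2) := by
    simp [E, ζ]
  rw [hre, him]
  nlinarith [h3]

/-- exposed faces -/
theorem exposed (g : ℤ × ℤ → ℂ) (v w : ℤ × ℤ) : IsExposed ℝ (cell g v) (cell g v ∩ cell g w) := by
  intro hne
  obtain ⟨z0, hz0, hz0'⟩ := hne
  -- the linear form `2 ⟨z, g w - g v⟩`
  let l : ℂ →L[ℝ] ℝ := (2 * (g w - g v).re) • Complex.reCLM + (2 * (g w - g v).im) • Complex.imCLM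
  have hl : ∀ z : ℂ, l z = ‖z - g v‖ ^ 2 - ‖z - g w‖ ^ 2 + (‖g w‖ ^ 2 - ‖g v‖ ^ 2) := by
    intro z
    simp only [l, Complex.sq_norm, Complex.normSq_apply, ContinuousLinearMap.add_apply,
      ContinuousLinearMap.smul_apply, Complex.reCLM_apply, Complex.imCLM_apply, smul_eq_mul,
      Complex.sub_re, Complex.sub_im]
    ring
  refine ⟨l, ?_⟩
  ext z
  constructor
  · rintro ⟨h1, h2⟩
    refine ⟨h1, fun y hy => ?_⟩
    have e1 : ‖z - g v‖ = ‖z - g w‖ := le_antisymm (h1 w) (h2 v)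
    have e2 := hy w
    rw [hl, hl, e1]
    have e3 : ‖y - g v‖ ^ 2 ≤ ‖y - g w‖ ^ 2 := pow_le_pow_left₀ (norm_nonneg _) e2 2
    linarith
  · rintro ⟨h1, h2⟩
    refine ⟨h1, fun u => ?_⟩
    have e0 : ‖z0 - g v‖ = ‖z0 - g w‖ := le_antisymm (hz0 w) (hz0' v)
    have e1 := h2 z0 hz0
    rw [hl, hl, e0] at e1
    have e2 : ‖z - g w‖ ^ 2 ≤ ‖z - g v‖ ^ 2 := by linarith
    have e3 : ‖z - g w‖ ≤ ‖z - g v‖ := by
      exact le_of_sq_le_sq e2 (norm_nonneg _)
    exact e3.trans (h1 u)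

theorem form_ge (e : ℤ × ℤ) (he : e ∈ six) (a b : ℤ) (h0 : ¬ (a = 0 ∧ b = 0))
    (h1 : ¬ (a = -e.1 ∧ b = -e.2)) :
    3 ≤ (2 * a + e.1) ^ 2 + (2 * a + e.1) * (2 * b + e.2) + (2 * b + e.2) ^ 2 := by
  by_contra hlt
  push Not at hlt
  have hx : -1 ≤ 2 * a + e.1 ∧ 2 * a + e.1 ≤ 1 := by
    constructor <;> nlinarith [sq_nonneg (2 * (2 * b + e.2) + (2 * a + e.1))]
  have hy : -1 ≤ 2 * b + e.2 ∧ 2 * b + e.2 ≤ 1 := by
    constructor <;> nlinarith [sq_nonneg (2 * (2 * a + e.1) + (2 * b + e.2))]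
  simp only [six, Finset.mem_insert, Finset.mem_singleton] at he
  rcases he with rfl | rfl | rfl | rfl | rfl | rfl <;> simp only at h1 hlt hx hy <;>
    (have ha1 : -1 ≤ a := by omega) <;> (have ha2 : a ≤ 1 := by omega) <;>
    (have hb1 : -1 ≤ b := by omega) <;> (have hb2 : b ≤ 1 := by omega) <;>
    interval_cases a <;> interval_cases b <;> omega

theorem norm_six (e : ℤ × ℤ) (he : e ∈ six) : ‖E e‖ = 1 := by
  have h : ‖E e‖ ^ 2 = 1 := by
    rw [norm_sq']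
    simp only [six, Finset.mem_insert, Finset.mem_singleton] at he
    rcases he with rfl | rfl | rfl | rfl | rfl | rfl <;> norm_num
  nlinarith [norm_nonneg (E e)]

theorem far (h : ℝ) (g : ℤ × ℤ → ℂ) (hg : Def1 h g) (v e w : ℤ × ℤ) (he : e ∈ six) (hv : w ≠ v)
    (hw : w ≠ v + e) : 79 / 100 * h ≤ ‖(g v + g (v + e)) / 2 - g w‖ := by
  obtain ⟨hh, hg⟩ := hg
  have he1 := norm_six e he
  have r1 := hg v w
  have r2 := hg (v + e) w
  set S : ℂ := E (v - w) + E (v + e - w) with hS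
  have hSe : S = E ((2 * (v.1 - w.1) + e.1, 2 * (v.2 - w.2) + e.2)) := by
    rw [hS]; unfold E; push_cast [Prod.fst_sub, Prod.snd_sub, Prod.fst_add, Prod.snd_add]; ring
  have hS3 : 3 ≤ ‖S‖ ^ 2 := by
    rw [hSe, norm_sq']
    have := form_ge e he (v.1 - w.1) (v.2 - w.2)
      (fun hc => hv (Prod.ext (by omega) (by omega)))
      (fun hc => hw (Prod.ext (by simp; omega) (by simp; omega)))
    exact_mod_cast this
  have hs : 1.73 ≤ ‖S‖ := by
    by_contra hlt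
    push Not at hlt
    nlinarith [norm_nonneg S]
  have hEe : E (v + e - w) - E (v - w) = E e := by
    rw [E_sub', E_sub', E_add']; ring
  have a1 : ‖E (v - w)‖ ≤ (‖S‖ + 1) / 2 := by
    have e1 : E (v - w) = (S - E e) / 2 := by rw [← hEe, hS]; ring
    rw [e1, norm_div]
    have := norm_sub_le S (E e)
    rw [he1] at this
    have h2 : ‖(2 : ℂ)‖ = 2 := by norm_num
    rw [h2]; linarith
  have a2 : ‖E (v + e - w)‖ ≤ (‖S‖ + 1) / 2 := by
    have e1 : E (v + e - w) = (S + E e) / 2 := by rw [← hEe, hS]; ring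
    rw [e1, norm_div]
    have := norm_add_le S (E e)
    rw [he1] at this
    have h2 : ‖(2 : ℂ)‖ = 2 := by norm_num
    rw [h2]; linarith
  have b1 : ‖(h : ℂ) * S‖ = h * ‖S‖ := by
    rw [norm_mul, Complex.norm_real, Real.norm_of_nonneg hh.le]
  have e2 : (h : ℂ) * S = 2 * ((g v + g (v + e)) / 2 - g w) - (g v - g w - (h : ℂ) * E (v - w))
      - (g (v + e) - g w - (h : ℂ) * E (v + e - w)) := by
    rw [hS]; ring
  have b2 : h * ‖S‖ ≤ 2 * ‖(g v + g (v + e)) / 2 - g w‖ + 1 / 20 * h * ‖E (v - w)‖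
      + 1 / 20 * h * ‖E (v + e - w)‖ := by
    rw [← b1, e2]
    refine (norm_sub_le _ _).trans (add_le_add ((norm_sub_le _ _).trans (add_le_add ?_ r1)) r2)
    rw [norm_mul]
    have h2 : ‖(2 : ℂ)‖ = 2 := by norm_num
    rw [h2]
  have c1 : 1 / 20 * h * ‖E (v - w)‖ ≤ 1 / 20 * h * ((‖S‖ + 1) / 2) :=
    mul_le_mul_of_nonneg_left a1 (by positivity)
  have c2 : 1 / 20 * h * ‖E (v + e - w)‖ ≤ 1 / 20 * h * ((‖S‖ + 1) / 2) :=
    mul_le_mul_of_nonneg_left a2 (by positivity)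
  have c3 : h * 1.73 ≤ h * ‖S‖ := mul_le_mul_of_nonneg_left hs hh.le
  nlinarith

theorem mem_both (h : ℝ) (g : ℤ × ℤ → ℂ) (hg : Def1 h g) (v e : ℤ × ℤ) (he : e ∈ six) (t : ℝ)
    (ht : |t| ≤ 1 / 10) :
    (g v + g (v + e)) / 2 + (t : ℂ) * Complex.I * (g (v + e) - g v) ∈ cell g v ∩ cell g (v + e) := by
  have he1 := norm_six e he
  have hh := hg.1
  set p := g v with hp
  set q := g (v + e) with hq
  have hd : ‖q - p‖ ≤ 21 / 20 * h := by
    have r := hg.2 (v + e) v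
    have e0 : v + e - v = e := by abel
    rw [e0, he1, ← hp, ← hq] at r
    have e1 : q - p = (q - p - (h : ℂ) * E e) + (h : ℂ) * E e := by ring
    have e2 : ‖(h : ℂ) * E e‖ = h := by
      rw [norm_mul, Complex.norm_real, Real.norm_of_nonneg hh.le, he1, mul_one]
    calc ‖q - p‖ = ‖(q - p - (h : ℂ) * E e) + (h : ℂ) * E e‖ := by rw [← e1]
      _ ≤ ‖q - p - (h : ℂ) * E e‖ + ‖(h : ℂ) * E e‖ := norm_add_le _ _
      _ ≤ 21 / 20 * h := by rw [e2]; linarith
  set z := (p + q) / 2 + (t : ℂ) * Complex.I * (q - p) with hz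
  have n1 : ‖(1 / 2 : ℂ) + (t : ℂ) * Complex.I‖ ^ 2 = 1 / 4 + t ^ 2 := by
    rw [Complex.sq_norm, Complex.normSq_apply]
    simp
    ring
  have n2 : ‖(-(1 / 2) : ℂ) + (t : ℂ) * Complex.I‖ ^ 2 = 1 / 4 + t ^ 2 := by
    rw [Complex.sq_norm, Complex.normSq_apply]
    simp
    ring
  have n3 : ‖(-(1 / 2) : ℂ) + (t : ℂ) * Complex.I‖ = ‖(1 / 2 : ℂ) + (t : ℂ) * Complex.I‖ := by
    have := n2.trans n1.symm
    exact (sq_eq_sq₀ (norm_nonneg _) (norm_nonneg _)).1 this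
  have ht2 : t ^ 2 ≤ 1 / 100 := by
    rw [← sq_abs]; nlinarith [abs_nonneg t]
  have n4 : ‖(1 / 2 : ℂ) + (t : ℂ) * Complex.I‖ ≤ 51 / 100 := by
    by_contra hlt
    push Not at hlt
    nlinarith
  have zp : ‖z - p‖ = ‖q - p‖ * ‖(1 / 2 : ℂ) + (t : ℂ) * Complex.I‖ := by
    rw [← norm_mul]; congr 1; rw [hz]; ring
  have zq : ‖z - q‖ = ‖q - p‖ * ‖(1 / 2 : ℂ) + (t : ℂ) * Complex.I‖ := by
    rw [← n3, ← norm_mul]; congr 1; rw [hz]; ring
  have zb : ‖q - p‖ * ‖(1 / 2 : ℂ) + (t : ℂ) * Complex.I‖ ≤ 54 / 100 * h := by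
    calc ‖q - p‖ * ‖(1 / 2 : ℂ) + (t : ℂ) * Complex.I‖ ≤ (21 / 20 * h) * (51 / 100) :=
          mul_le_mul hd n4 (norm_nonneg _) (by positivity)
      _ ≤ 54 / 100 * h := by nlinarith
  have zw : ∀ w, w ≠ v → w ≠ v + e → 54 / 100 * h ≤ ‖z - g w‖ := by
    intro w h1 h2
    have f := far h g hg v e w he h1 h2
    rw [← hp, ← hq] at f
    have e1 : (p + q) / 2 - g w = (z - g w) - (t : ℂ) * Complex.I * (q - p) := by rw [hz]; ring
    have e2 : ‖(t : ℂ) * Complex.I * (q - p)‖ ≤ 1 / 10 * (21 / 20 * h) := by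
      rw [norm_mul, norm_mul, Complex.norm_I, mul_one, Complex.norm_real, Real.norm_eq_abs]
      exact mul_le_mul ht hd (norm_nonneg _) (by norm_num)
    rw [e1] at f
    have := norm_sub_le (z - g w) ((t : ℂ) * Complex.I * (q - p))
    linarith
  constructor
  · intro w
    by_cases h1 : w = v
    · rw [h1]
    by_cases h2 : w = v + e
    · rw [h2, ← hp, ← hq, zp, zq]
    rw [← hp, zp]
    exact zb.trans (zw w h1 h2)
  · intro w
    by_cases h1 : w = v
    · rw [h1, ← hp, ← hq, zp, zq]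
    by_cases h2 : w = v + e
    · rw [h2]
    rw [← hq, zq]
    exact zb.trans (zw w h1 h2)

end T10

theorem edge (h : ℝ) (g : ℤ × ℤ → ℂ) (hg : Def1 h g) (v e : ℤ × ℤ) (he : e ∈ six) :
    ShareEdge (cell g v) (cell g (v + e)) := by
  have he1 := T10.norm_six e he
  have hh := hg.1
  have hne : g (v + e) ≠ g v := by
    intro h0
    have r := hg.2 (v + e) v
    have e0 : v + e - v = e := by abel
    rw [e0, he1, h0, sub_self, zero_sub, norm_neg, norm_mul, Complex.norm_real,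
      Real.norm_of_nonneg hh.le, he1] at r
    linarith
  have self : ∀ u, g u ∈ cell g u := by
    intro u w
    rw [sub_self, norm_zero]
    exact norm_nonneg _
  refine ⟨cell g v ∩ cell g (v + e), T10.exposed g v (v + e), ?_, ?_, ?_, ?_⟩
  · rw [inter_comm]
    exact T10.exposed g (v + e) v
  · refine ⟨_, T10.mem_both h g hg v e he 0 (by norm_num), _,
      T10.mem_both h g hg v e he (1 / 10) (by rw [abs_of_pos] <;> norm_num), ?_⟩
    intro h0
    have h1 : ((1 / 10 : ℝ) : ℂ) * Complex.I * (g (v + e) - g v) = 0 := by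
      have := h0
      push_cast at this ⊢
      linear_combination -this
    rcases mul_eq_zero.1 h1 with h2 | h2
    · rcases mul_eq_zero.1 h2 with h3 | h3
      · norm_num at h3
      · exact Complex.I_ne_zero h3
    · exact hne (sub_eq_zero.1 h2)
  · intro h0
    have h1 := self v
    rw [← h0] at h1
    have h2 := h1.2 v
    rw [sub_self, norm_zero] at h2
    have h3 := norm_le_zero_iff.1 h2
    exact hne (sub_eq_zero.1 h3).symm
  · intro h0
    have h1 := self (v + e)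
    rw [← h0] at h1
    have h2 := h1.1 (v + e)
    rw [sub_self, norm_zero] at h2
    have h3 := norm_le_zero_iff.1 h2
    exact hne (sub_eq_zero.1 h3)

end Pool.Agent.K4H72.Til
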